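import Mathlib

/-!
# The Banach space of Lipschitz functions vanishing at a base point
-/

set_option autoImplicit false

namespace Pool.Agent.Q197.LipNet

universe u

/-- The vector space of Lipschitz functions on `M` vanishing at `o`. -/
def lipSub (M : Type u) [MetricSpace M] (o : M) : Submodule ℝ (M → ℝ) where
  carrier := {f | f o = 0 ∧ ∃ K : ℝ, ∀ x y, |f x - f y| ≤ K * dist x y}
  zero_mem' := ⟨rfl, 0, fun x y => by simp⟩
  add_mem' := by
    rintro f g ⟨hf, K, hfK⟩ ⟨hg, L, hgL⟩
    refine ⟨by simp [hf, hg], K + L, fun x y => ?_⟩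
    have h1 := hfK x y
    have h2 := hgL x y
    have : (f + g) x - (f + g) y = (f x - f y) + (g x - g y) := by
      simp only [Pi.add_apply]; ring
    rw [this]
    refine (abs_add_le _ _).trans ?_
    rw [add_mul]
    exact add_le_add h1 h2
  smul_mem' := by
    rintro c f ⟨hf, K, hfK⟩
    refine ⟨by simp [hf], |c| * K, fun x y => ?_⟩
    have h1 := hfK x y
    have : (c • f) x - (c • f) y = c * (f x - f y) := by
      simp only [Pi.smul_apply, smul_eq_mul]; ring
    rw [this, abs_mul, mul_assoc]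
    exact mul_le_mul_of_nonneg_left h1 (abs_nonneg _)

/-- `Lip0 M o` is the space of real Lipschitz functions on `M` vanishing at `o`. -/
def Lip0 (M : Type u) [MetricSpace M] (o : M) : Type u := lipSub M o

variable {M : Type u} [MetricSpace M] {o : M}

noncomputable instance : AddCommGroup (Lip0 M o) := inferInstanceAs (AddCommGroup (lipSub M o))

noncomputable instance : Module ℝ (Lip0 M o) := inferInstanceAs (Module ℝ (lipSub M o))

instance : CoeFun (Lip0 M o) fun _ => M → ℝ := ⟨fun f => f.1⟩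

@[ext] lemma Lip0.ext {f g : Lip0 M o} (h : ∀ x, f x = g x) : f = g := Subtype.ext (funext h)

lemma Lip0.add_apply (f g : Lip0 M o) (x : M) : (f + g) x = f x + g x := rfl

lemma Lip0.smul_apply (c : ℝ) (f : Lip0 M o) (x : M) : (c • f) x = c * f x := rfl

lemma Lip0.zero_apply (x : M) : (0 : Lip0 M o) x = 0 := rfl

lemma Lip0.base (f : Lip0 M o) : f o = 0 := f.2.1

/-- The norm of `f` is the supremum of `|f x - f y| / d(x, y)`. -/
noncomputable instance : Norm (Lip0 M o) :=
  ⟨fun f => ⨆ p : M × M, |f p.1 - f p.2| / dist p.1 p.2⟩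

lemma Lip0.norm_def (f : Lip0 M o) : ‖f‖ = ⨆ p : M × M, |f p.1 - f p.2| / dist p.1 p.2 := rfl

lemma Lip0.bdd (f : Lip0 M o) : BddAbove (Set.range fun p : M × M => |f p.1 - f p.2| /
    dist p.1 p.2) := by
  obtain ⟨-, K, hK⟩ := f.2
  refine ⟨|K|, ?_⟩
  rintro _ ⟨⟨x, y⟩, rfl⟩
  rcases eq_or_ne x y with h | h
  · subst h
    simp
  · rw [div_le_iff₀ (dist_pos.2 h)]
    exact (hK x y).trans (mul_le_mul_of_nonneg_right (le_abs_self K) dist_nonneg)

lemma Lip0.le_norm (f : Lip0 M o) (x y : M) : |f x - f y| ≤ ‖f‖ * dist x y := by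
  rcases eq_or_ne x y with h | h
  · subst h
    simp
  · have := le_ciSup f.bdd (x, y)
    rw [← Lip0.norm_def] at this
    rwa [div_le_iff₀ (dist_pos.2 h)] at this

lemma Lip0.norm_le (f : Lip0 M o) {K : ℝ} (hK : 0 ≤ K)
    (h : ∀ x y, |f x - f y| ≤ K * dist x y) : ‖f‖ ≤ K := by
  have : Nonempty (M × M) := ⟨(o, o)⟩
  refine ciSup_le fun p => ?_
  rcases eq_or_ne p.1 p.2 with h1 | h1
  · rw [h1]
    simpa using hK
  · rw [div_le_iff₀ (dist_pos.2 h1)]
    exact h _ _

lemma Lip0.norm_nonneg' (f : Lip0 M o) : 0 ≤ ‖f‖ :=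
  Real.iSup_nonneg fun p => by positivity

lemma Lip0.core : NormedSpace.Core ℝ (Lip0 M o) where
  norm_nonneg := Lip0.norm_nonneg'
  norm_smul c f := by
    refine le_antisymm (Lip0.norm_le _ (mul_nonneg (_root_.norm_nonneg _) f.norm_nonneg') ?_) ?_
    · intro x y
      rw [Lip0.smul_apply, Lip0.smul_apply, ← mul_sub, abs_mul, Real.norm_eq_abs, mul_assoc]
      exact mul_le_mul_of_nonneg_left (f.le_norm x y) (abs_nonneg _)
    · rcases eq_or_ne c 0 with h | h
      · rw [h, norm_zero, zero_mul]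
        exact Lip0.norm_nonneg' _
      · rw [Real.norm_eq_abs, ← le_div_iff₀' (abs_pos.2 h)]
        refine Lip0.norm_le _ (div_nonneg (Lip0.norm_nonneg' _) (abs_nonneg _)) fun x y => ?_
        have h1 := (c • f).le_norm x y
        rw [Lip0.smul_apply, Lip0.smul_apply, ← mul_sub, abs_mul] at h1
        rw [div_mul_eq_mul_div, le_div_iff₀ (abs_pos.2 h)]
        linarith
  norm_triangle f g := by
    refine Lip0.norm_le _ (add_nonneg f.norm_nonneg' g.norm_nonneg') fun x y => ?_
    rw [Lip0.add_apply, Lip0.add_apply, add_mul]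
    have : f x + g x - (f y + g y) = (f x - f y) + (g x - g y) := by ring
    rw [this]
    exact (abs_add_le _ _).trans (add_le_add (f.le_norm x y) (g.le_norm x y))
  norm_eq_zero_iff f := by
    refine ⟨fun h => Lip0.ext fun x => ?_, fun h => ?_⟩
    · have h1 := f.le_norm x o
      rw [h, zero_mul, f.base, sub_zero] at h1
      rw [Lip0.zero_apply]
      exact abs_nonpos_iff.1 h1
    · subst h
      refine le_antisymm (Lip0.norm_le _ le_rfl fun x y => ?_) (Lip0.norm_nonneg' _)
      simp [Lip0.zero_apply]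

noncomputable instance : NormedAddCommGroup (Lip0 M o) := NormedAddCommGroup.ofCore Lip0.core

noncomputable instance : NormedSpace ℝ (Lip0 M o) := NormedSpace.ofCore Lip0.core

/-- A net of a metric space: uniformly discrete and coarsely dense. -/
def IsNet {X : Type u} [MetricSpace X] (N : Set X) : Prop :=
  ∃ ε δ : ℝ, 0 < ε ∧ 0 < δ ∧ (∀ x ∈ N, ∀ y ∈ N, x ≠ y → ε ≤ dist x y) ∧
    ∀ x : X, ∃ y ∈ N, dist x y < δ

end Pool.Agent.Q197.LipNet
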