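import Pool.Agent.Q197.LipNet.Defs
import Pool.Agent.H621R3.LFNet
import Pool.Agent.H621R3.LFExist

/-!
# Lipschitz spaces over nets are isomorphic to their `ℓ_∞`-sums

Dualisation of the isomorphism of the free spaces.
-/

set_option autoImplicit false

namespace Pool.Agent.Q197.LipNet

open Pool.Agent.H621R3.LF

universe u

/-- The free space of a net, as a normed space, with its isomorphism to its `ℓ_1`-sum. -/
lemma free_data {X : Type u} [NormedAddCommGroup X] [NormedSpace ℝ X] {N : Set X}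
    (hN : Pool.Agent.H621R3.LF.IsNet N) (x0 : N) :
    ∃ (F : Type u) (_ : NormedAddCommGroup F) (_ : NormedSpace ℝ F) (δ : N → F)
      (_ : F ≃L[ℝ] lp (fun _ : ℕ => F) 1),
      (∀ x y, ‖δ x - δ y‖ = dist x y) ∧ δ x0 = 0 ∧
      (∀ (f : N → ℝ) (L : ℝ), 0 ≤ L → f x0 = 0 → (∀ x y, |f x - f y| ≤ L * dist x y) →
        ∃ T : F →L[ℝ] ℝ, (∀ x, T (δ x) = f x) ∧ ∀ v, |T v| ≤ L * ‖v‖) ∧
      ∀ T T' : F →L[ℝ] ℝ, (∀ x, T (δ x) = T' (δ x)) → T = T' := by
  obtain ⟨F, nF, mF, pF, δ, hδ⟩ := exists_lipFree (p := 1) one_pos le_rfl x0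
  obtain ⟨e⟩ := net_iso hN x0 one_pos δ hδ
  let nsF : NormedSpace ℝ F :=
    { mF with
      norm_smul_le := fun c y => by
        have := PBanach.norm_smul (p := 1) c y
        rw [Real.rpow_one] at this
        rw [Real.norm_eq_abs]
        exact this.le }
  -- the isomorphism
  let e0 : F ≃ₗ[ℝ] lp (fun _ : ℕ => F) 1 :=
    { toFun := fun v => (e v : EllP 1 F)
      invFun := fun w => e.symm (w : EllP 1 F)
      map_add' := fun v w => e.map_add v w
      map_smul' := fun c v => by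
        have h := e.map_smul c v
        refine Subtype.ext ?_
        funext n
        have h2 := congrArg (fun z : EllP 1 F => z n) h
        exact h2
      left_inv := fun v => e.symm_apply_apply v
      right_inv := fun w => e.apply_symm_apply w }
  let e1 : F ≃L[ℝ] lp (fun _ : ℕ => F) 1 :=
    { e0 with
      continuous_toFun := e.continuous
      continuous_invFun := e.symm.continuous }
  have hU : PBanach 1 (ULift.{u} ℝ) :=
    { complete := inferInstance
      norm_smul := fun c y => by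
        rw [Real.rpow_one]
        exact norm_smul c y }
  let up : ℝ →L[ℝ] ULift.{u} ℝ := (ContinuousLinearEquiv.ulift (R₁ := ℝ) (M₁ := ℝ)).symm
  let dn : ULift.{u} ℝ →L[ℝ] ℝ := (ContinuousLinearEquiv.ulift (R₁ := ℝ) (M₁ := ℝ))
  refine ⟨F, nF, nsF, δ, e1, fun x y => ?_, hδ.map_base, fun f L hL h0 hf => ?_, fun T T' h => ?_⟩
  · have := hδ.isometric x y
    rwa [Real.rpow_one] at this
  · obtain ⟨T, hT1, hT2⟩ := hδ.lift (ULift.{u} ℝ) hU (fun x => ULift.up (f x)) L hL
      (by simp [h0]; rfl) (fun x y => by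
        rw [Real.rpow_one]
        exact hf x y)
    refine ⟨dn.comp T, fun x => ?_, fun v => ?_⟩
    · change (T (δ x)).down = f x
      rw [hT1]
    · have := hT2 v
      rw [Real.rpow_one] at this
      exact this
  · have h2 := hδ.unique (ULift.{u} ℝ) hU (up.comp T) (up.comp T') (fun x => by
      change ULift.up (T (δ x)) = ULift.up (T' (δ x))
      rw [h x])
    ext v
    have h3 := congrArg (fun S : F →L[ℝ] ULift.{u} ℝ => (S v).down) h2
    exact h3

/-- **The isomorphism.** -/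
theorem lip0_iso {X : Type u} [NormedAddCommGroup X] [NormedSpace ℝ X] {N : Set X}
    (hN : Pool.Agent.H621R3.LF.IsNet N) (x0 : N) :
    Nonempty (Lip0 N x0 ≃L[ℝ] lp (fun _ : ℕ => Lip0 N x0) ⊤) := by
  obtain ⟨F, nF, nsF, δ, e, hd, h0, hlift, huniq⟩ := free_data hN x0
  -- extension of Lipschitz functions
  choose E hE1 hE2 using fun f : Lip0 N x0 =>
    hlift (fun x => f x) ‖f‖ (norm_nonneg f) f.base f.le_norm
  have hEadd : ∀ f g, E (f + g) = E f + E g := fun f g => huniq _ _ fun x => by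
    rw [add_apply, hE1, hE1, hE1]
    rfl
  have hEsmul : ∀ (c : ℝ) f, E (c • f) = c • E f := fun c f => huniq _ _ fun x => by
    rw [smul_apply, hE1, hE1]
    rfl
  -- restriction of functionals
  have hres : ∀ T : F →L[ℝ] ℝ, (fun x => T (δ x)) ∈ lipSub N x0 := by
    intro T
    refine ⟨by change T (δ x0) = 0; rw [h0, map_zero], ‖T‖, fun x y => ?_⟩
    have := T.le_opNorm (δ x - δ y)
    rw [map_sub, hd] at this
    exact this
  let R : (F →L[ℝ] ℝ) → Lip0 N x0 := fun T => ⟨fun x => T (δ x), hres T⟩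
  have hRapp : ∀ T x, R T x = T (δ x) := fun T x => rfl
  have hRn : ∀ T, ‖R T‖ ≤ ‖T‖ := by
    intro T
    refine Lip0.norm_le _ (norm_nonneg _) fun x y => ?_
    have := T.le_opNorm (δ x - δ y)
    rw [map_sub, hd] at this
    exact this
  have hER : ∀ T, E (R T) = T := fun T => huniq _ _ fun x => hE1 _ x
  have hRE : ∀ f, R (E f) = f := fun f => Lip0.ext fun x => hE1 f x
  have hEn : ∀ f, ‖E f‖ ≤ ‖f‖ := fun f =>
    ContinuousLinearMap.opNorm_le_bound _ (norm_nonneg _) fun v => hE2 f v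
  -- coordinates
  let sg : ℕ → F →L[ℝ] lp (fun _ : ℕ => F) 1 := fun n =>
    lp.singleContinuousLinearMap ℝ (fun _ : ℕ => F) 1 n
  have hsg : ∀ n v, ‖sg n v‖ ≤ ‖v‖ := fun n v => by
    change ‖lp.single (E := fun _ : ℕ => F) 1 n v‖ ≤ _
    rw [lp.norm_single (by norm_num)]
  let e' : lp (fun _ : ℕ => F) 1 →L[ℝ] F := e.symm
  -- forward map
  let Φ0 : Lip0 N x0 → ℕ → Lip0 N x0 := fun f n => R (((E f).comp e').comp (sg n))
  have hΦ0 : ∀ f n, ‖Φ0 f n‖ ≤ ‖e'‖ * ‖f‖ := by
    intro f n
    refine (hRn _).trans (ContinuousLinearMap.opNorm_le_bound _ (by positivity) fun v => ?_)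
    change ‖E f (e' (sg n v))‖ ≤ _
    calc ‖E f (e' (sg n v))‖ ≤ ‖E f‖ * ‖e' (sg n v)‖ := (E f).le_opNorm _
      _ ≤ ‖f‖ * (‖e'‖ * ‖v‖) := mul_le_mul (hEn f)
          ((e'.le_opNorm _).trans (mul_le_mul_of_nonneg_left (hsg n v) (norm_nonneg _)))
          (norm_nonneg _) (norm_nonneg _)
      _ = _ := by ring
  let Φ : Lip0 N x0 →L[ℝ] lp (fun _ : ℕ => Lip0 N x0) ⊤ := LinearMap.mkContinuous
    { toFun := fun f => ⟨Φ0 f, memℓp_infty ⟨‖e'‖ * ‖f‖, by rintro _ ⟨n, rfl⟩; exact hΦ0 f n⟩⟩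
      map_add' := fun f g => by
        refine Subtype.ext (funext fun n => Lip0.ext fun x => ?_)
        change E (f + g) (e' (sg n (δ x))) = E f (e' (sg n (δ x))) + E g (e' (sg n (δ x)))
        rw [hEadd]
        rfl
      map_smul' := fun c f => by
        refine Subtype.ext (funext fun n => Lip0.ext fun x => ?_)
        change E (c • f) (e' (sg n (δ x))) = c * E f (e' (sg n (δ x)))
        rw [hEsmul]
        rfl } ‖e'‖ (fun f => lp.norm_le_of_forall_le (by positivity) (hΦ0 f))
  -- backward map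
  have hsum : ∀ w : lp (fun _ : ℕ => F) 1, Summable fun n => ‖w n‖ := by
    intro w
    have h := (lp.memℓp (E := fun _ : ℕ => F) (p := 1) w).summable (by norm_num)
    simpa only [ENNReal.toReal_one, Real.rpow_one] using h
  have hnorm : ∀ w : lp (fun _ : ℕ => F) 1, ‖w‖ = ∑' n, ‖w n‖ := by
    intro w
    have h := lp.norm_eq_tsum_rpow (E := fun _ : ℕ => F) (p := 1) (by norm_num) w
    simpa only [ENNReal.toReal_one, Real.rpow_one, div_one] using h
  have hb : ∀ (g : lp (fun _ : ℕ => Lip0 N x0) ⊤) (w : lp (fun _ : ℕ => F) 1) (n : ℕ),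
      ‖E (g n) (w n)‖ ≤ ‖g‖ * ‖w n‖ := fun g w n =>
    ((E (g n)).le_opNorm _).trans (mul_le_mul_of_nonneg_right
      ((hEn _).trans (lp.norm_apply_le_norm (by simp) g n)) (norm_nonneg _))
  have hs : ∀ (g : lp (fun _ : ℕ => Lip0 N x0) ⊤) (w : lp (fun _ : ℕ => F) 1),
      Summable fun n => E (g n) (w n) := fun g w =>
    Summable.of_norm_bounded ((hsum w).mul_left ‖g‖) (hb g w)
  let S : lp (fun _ : ℕ => Lip0 N x0) ⊤ → lp (fun _ : ℕ => F) 1 →L[ℝ] ℝ := fun g =>
    LinearMap.mkContinuous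
      { toFun := fun w => ∑' n, E (g n) (w n)
        map_add' := fun v w => by
          rw [← (hs g v).tsum_add (hs g w)]
          exact tsum_congr fun n => (E (g n)).map_add _ _
        map_smul' := fun c w => by
          rw [RingHom.id_apply, smul_eq_mul, ← tsum_mul_left]
          exact tsum_congr fun n => (E (g n)).map_smul _ _ } ‖g‖ (fun w => by
        rw [hnorm, ← tsum_mul_left]
        exact tsum_of_norm_bounded ((hsum w).mul_left ‖g‖).hasSum (hb g w))
  have hSapp : ∀ g w, S g w = ∑' n, E (g n) (w n) := fun g w => rfl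
  have hSn : ∀ g, ‖S g‖ ≤ ‖g‖ := fun g => LinearMap.mkContinuous_norm_le _ (norm_nonneg _) _
  let ee : F →L[ℝ] lp (fun _ : ℕ => F) 1 := e
  let Ψ : lp (fun _ : ℕ => Lip0 N x0) ⊤ →L[ℝ] Lip0 N x0 := LinearMap.mkContinuous
    { toFun := fun g => R ((S g).comp ee)
      map_add' := fun f g => by
        refine Lip0.ext fun x => ?_
        change S (f + g) (ee (δ x)) = S f (ee (δ x)) + S g (ee (δ x))
        rw [hSapp, hSapp, hSapp, ← (hs f _).tsum_add (hs g _)]
        refine tsum_congr fun n => ?_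
        rw [lp.coeFn_add, Pi.add_apply, hEadd]
        rfl
      map_smul' := fun c g => by
        refine Lip0.ext fun x => ?_
        change S (c • g) (ee (δ x)) = c * S g (ee (δ x))
        rw [hSapp, hSapp, ← tsum_mul_left]
        refine tsum_congr fun n => ?_
        rw [lp.coeFn_smul, Pi.smul_apply, hEsmul]
        rfl } ‖ee‖ (fun g => by
      refine (hRn _).trans ((ContinuousLinearMap.opNorm_comp_le _ _).trans ?_)
      rw [mul_comm]
      exact mul_le_mul_of_nonneg_left (hSn g) (norm_nonneg _))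
  refine ⟨ContinuousLinearEquiv.equivOfInverse Φ Ψ (fun f => ?_) (fun g => ?_)⟩
  · -- `Ψ (Φ f) = f`
    refine Lip0.ext fun x => ?_
    change ∑' n, E (Φ0 f n) (ee (δ x) n) = f x
    have h1 : ∀ n, E (Φ0 f n) (ee (δ x) n) = E f (e' (sg n (ee (δ x) n))) := by
      intro n
      change E (R (((E f).comp e').comp (sg n))) _ = _
      rw [hER]
      rfl
    simp only [h1]
    have h2 := lp.hasSum_single (p := 1) (by norm_num) (ee (δ x))
    have h3 := ((E f).comp e').hasSum h2
    have h4 : ∑' n, E f (e' (sg n (ee (δ x) n))) = E f (e' (ee (δ x))) := h3.tsum_eq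
    rw [h4]
    change E f (e.symm (e (δ x))) = f x
    rw [e.symm_apply_apply, hE1]
  · refine Subtype.ext (funext fun n => Lip0.ext fun x => ?_)
    change E (R ((S g).comp ee)) (e' (sg n (δ x))) = g n x
    rw [hER]
    change S g (e (e.symm (sg n (δ x)))) = g n x
    rw [e.apply_symm_apply, hSapp]
    have h1 : ∀ m, m ≠ n → E (g m) (sg n (δ x) m) = 0 := by
      intro m hm
      change E (g m) (lp.single (E := fun _ : ℕ => F) 1 n (δ x) m) = 0
      rw [lp.single_apply_ne _ _ _ hm, map_zero]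
    rw [tsum_eq_single n h1]
    change E (g n) (lp.single (E := fun _ : ℕ => F) 1 n (δ x) n) = _
    rw [lp.single_apply_self, hE1]

end Pool.Agent.Q197.LipNet
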